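import Pool.Agent.H741.EL.Stm
import Pool.Graph.R_seed8.Y508.PerimLow

/-!
# Project EL: assembly
-/

set_option autoImplicit false
open MeasureTheory Metric Set Filter Topology

namespace Pool.Agent.H741.EL
open Pool.Agent.Y508

theorem int_ip (x : E2) : ∫ θ in (0 : ℝ)..(2 * Real.pi), ip x θ = 0 := by
  unfold ip
  rw [intervalIntegral.integral_add (by apply Continuous.intervalIntegrable; fun_prop)
    (by apply Continuous.intervalIntegrable; fun_prop)]
  simp

theorem hs_ball (c : E2) {r : ℝ} (hr : 0 ≤ r) (θ : ℝ) : hs (closedBall c r) θ = ip c θ + r := by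
  apply le_antisymm
  · refine hs_le ⟨c, mem_closedBall_self hr⟩ fun x hx => ?_
    have h1 : ip x θ = ip c θ + ip (x - c) θ := by rw [ip_sub]; ring
    have h2 := (le_abs_self _).trans (abs_ip_le (x - c) θ)
    rw [mem_closedBall, dist_eq_norm] at hx
    linarith
  · have hx : c + r • ev θ ∈ closedBall c r := by
      rw [mem_closedBall, dist_eq_norm, add_sub_cancel_left, norm_smul, norm_ev, mul_one,
        Real.norm_of_nonneg hr]
    have h1 := le_hs (isCompact_closedBall c r) hx θ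
    rw [ip_add, ip_smul, ip_ev, sub_self, Real.cos_zero, mul_one] at h1
    exact h1

theorem W_ball (c : E2) {r : ℝ} (hr : 0 ≤ r) : W (closedBall c r) = 2 * Real.pi * r := by
  unfold W
  rw [intervalIntegral.integral_congr (g := fun θ => ip c θ + r) (fun θ _ => hs_ball c hr θ),
    intervalIntegral.integral_add ((cont_ip c).intervalIntegrable _ _)
      (continuous_const.intervalIntegrable _ _), int_ip]
  simp

theorem body_ball (c : E2) {r : ℝ} (hr : 0 < r) : Body (closedBall c r) :=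
  ⟨isCompact_closedBall c r, convex_closedBall c r, by
    rw [interior_closedBall c hr.ne']; exact ⟨c, mem_ball_self hr⟩⟩

theorem rr_pos {a b : ℝ} (hb : 0 < b) (hab : b ≤ a) : 0 < rr a b := by
  unfold rr
  apply Real.sqrt_pos.2
  have : 0 < a := hb.trans_le hab
  positivity

theorem rr_sq {a b : ℝ} (hb : 0 < b) (hab : b ≤ a) : rr a b ^ 2 = a * b / 2 := by
  unfold rr
  have : 0 < a := hb.trans_le hab
  exact Real.sq_sqrt (by positivity)

theorem AA_pos {a b : ℝ} (hb : 0 < b) (hab : b ≤ a) : 0 < AA a b := by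
  unfold AA
  have : 0 < a := hb.trans_le hab
  have := Real.pi_pos
  positivity

theorem AA_eq {a b : ℝ} (hb : 0 < b) (hab : b ≤ a) : AA a b = Real.pi * rr a b ^ 2 := by
  rw [rr_sq hb hab]
  unfold AA
  ring

theorem vol_ball (c : E2) {r : ℝ} (hr : 0 ≤ r) : volume.real (closedBall c r) = Real.pi * r ^ 2 := by
  rw [Measure.real, EuclideanSpace.volume_closedBall_fin_two, ENNReal.toReal_mul,
    ENNReal.toReal_pow, ENNReal.toReal_ofReal hr, ENNReal.toReal_ofReal Real.pi_pos.le]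
  ring

/-- a body of the configuration which is longer than the disc can be improved -/
theorem key (hQQ : S_QQ) (hARC : S_ARC) (hHALF : S_HALF) (hPERT : S_PERT) (hCA : S_CA) (hCB : S_CB)
    (hCC : S_CC) (hCD : S_CD) {a b : ℝ} {p : E2} {K : Set E2} (h : Cfg a b p K)
    (hW : 2 * Real.pi * rr a b < W K) : ∃ K', Better a b p K K' := by
  have hpi := Real.pi_pos
  obtain ⟨-, -, -, -, -, q6, -⟩ := hQQ a b h.hb h.hab
  obtain ⟨θp, hθ⟩ := q6 p h.hp
  rcases hARC a b p K h θp hθ with ⟨α, β, A⟩ | hν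
  · have hr := rr_pos h.hb h.hab
    have h1 : rr a b < W K / (2 * Real.pi) := by
      rw [lt_div_iff₀ (by positivity)]; linarith
    obtain ⟨s, hs1, hs2⟩ := exists_between h1
    obtain ⟨R, hR1, hR2⟩ := exists_between hs2
    have hs0 : 0 < s := hr.trans hs1
    have hRW : 2 * Real.pi * R < W K := by
      rw [lt_div_iff₀ (by positivity)] at hR2; linarith
    have key2 : ∃ w c φ₁, Pert a b p K θp R s w c φ₁ := by
      rcases A.h1.lt_or_eq with h3 | h3 <;> rcases A.h2.lt_or_eq with h4 | h4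
      · exact hCB a b p K θp α β R s h hθ hs0 hR1 hRW A h3 h4
      · subst h4; exact hCC a b p K θp α R s h hθ hs0 hR1 hRW A h3
      · subst h3; exact hCD a b p K α β R s h hθ hs0 hR1 hRW A h4
      · subst h3; subst h4; exact hCA a b p K α R s h hθ hs0 hR1 hRW A
    obtain ⟨w, c, φ₁, hP⟩ := key2
    exact hPERT a b p K θp R s w c φ₁ h hθ hs1 hR1 hRW hP
  · exact hHALF a b p K h hν

theorem bdE_sub (a b : ℝ) : bdE a b ⊆ Ell a b := fun x hx => by
  have : (x 0 / a) ^ 2 + (x 1 / b) ^ 2 = 1 := hx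
  exact this.le

/-- existence of admissible curves -/
theorem exists_adm (hELL : S_ELL) (hCOMP : S_COMP) {a b : ℝ} {p : E2} (hb : 0 < b) (hab : b ≤ a)
    (hp : p ∈ bdE a b) : ∃ γ : ℝ → E2, Adm a b p γ := by
  obtain ⟨e1, -, -, e4, -⟩ := hELL a b hb hab
  have ha : 0 < a := hb.trans_le hab
  have hpi := Real.pi_pos
  have hv : volume.real (Ell a b) = Real.pi * a * b := by
    rw [Measure.real, e4, ENNReal.toReal_ofReal (by positivity)]
  obtain ⟨γ, h1, -⟩ := hCOMP a b p (Ell a b) hb hab hp e1 subset_rfl (bdE_sub a b hp) (by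
    rw [hv]; unfold AA; have : 0 < Real.pi * a * b := by positivity
    linarith)
  exact ⟨γ, h1⟩

/-- the comparison: no convex body in `E` with more area through `p` has a smaller ratio -/
theorem comp_lt (hCOMP : S_COMP) {a b : ℝ} {p : E2} {γ : ℝ → E2} (hb : 0 < b) (hab : b ≤ a)
    (hp : p ∈ bdE a b) (hγ : Shortest a b p γ) {P : ℝ} (hP0 : 0 < P) (hP : ENNReal.ofReal P ≤ len γ)
    {K' : Set E2} (hK : Body K') (hs : K' ⊆ Ell a b) (hm : p ∈ K') (hv : AA a b < volume.real K')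
    (hlt : AA a b * W K' ^ 2 < volume.real K' * P ^ 2) : False := by
  obtain ⟨γ', h1, h2⟩ := hCOMP a b p K' hb hab hp hK hs hm hv
  have hA := AA_pos hb hab
  have hV : 0 < volume.real K' := hA.trans hv
  have hWp := W_pos hK
  have h3 := hP.trans ((hγ.2 γ' h1).trans h2)
  have h4 : P ≤ Real.sqrt (AA a b / volume.real K') * W K' := by
    rwa [ENNReal.ofReal_le_ofReal_iff (by positivity)] at h3
  have h5 : P ^ 2 ≤ (Real.sqrt (AA a b / volume.real K') * W K') ^ 2 :=
    pow_le_pow_left₀ hP0.le h4 2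
  rw [mul_pow, Real.sq_sqrt (by positivity)] at h5
  have h6 : P ^ 2 * volume.real K' ≤ AA a b * W K' ^ 2 := by
    calc P ^ 2 * volume.real K' ≤ (AA a b / volume.real K' * W K' ^ 2) * volume.real K' :=
          mul_le_mul_of_nonneg_right h5 hV.le
      _ = AA a b * W K' ^ 2 := by field_simp
  linarith

theorem shape (hQQ : S_QQ) (hARC : S_ARC) (hHALF : S_HALF) (hPERT : S_PERT) (hCA : S_CA) (hCB : S_CB)
    (hCC : S_CC) (hCD : S_CD) (hJOR : S_JOR) (hCRO : S_CRO) (hISO : S_ISO) (hCOMP : S_COMP)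
    (hDISC1 : S_DISC1) {a b : ℝ} {p : E2} {γ : ℝ → E2} (hb : 0 < b) (hab : b ≤ a) (hp : p ∈ bdE a b)
    (hγ : Shortest a b p γ) : Cond a b p ∧ γ '' Icc 0 1 = sphere (cen a b p) (rr a b) := by
  have hpi := Real.pi_pos
  obtain ⟨j1, j2, j3, j4, j5⟩ := hJOR a b p γ hb hab hγ.1
  set K := convexHull ℝ (γ '' Icc 0 1) with hK
  have hcro : ENNReal.ofReal (W K) ≤ len γ := hCRO γ hγ.1.simple
  have hWp := W_pos j1
  have hA := AA_pos hb hab
  have hr := rr_pos hb hab
  rcases j4.lt_or_eq with h | h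
  · exfalso
    refine comp_lt hCOMP hb hab hp hγ hWp hcro j1 j2 j3 h ?_
    have : 0 < W K ^ 2 := by positivity
    nlinarith
  obtain ⟨k1, k2⟩ := j5 h.ge
  obtain ⟨i1, i2⟩ := hISO K j1
  have e1 : 4 * Real.pi * volume.real K = (2 * Real.pi * rr a b) ^ 2 := by
    rw [← h, AA_eq hb hab]; ring
  have h2 : 2 * Real.pi * rr a b ≤ W K := by
    rw [e1] at i1
    exact le_of_sq_le_sq i1 hWp.le
  rcases h2.lt_or_eq with h3 | h3
  · exfalso
    obtain ⟨K', B⟩ := key hQQ hARC hHALF hPERT hCA hCB hCC hCD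
      (K := K) ⟨hb, hab, hp, j1, j2, j3, h.symm, k2⟩ h3
    exact comp_lt hCOMP hb hab hp hγ hWp hcro B.body B.sub B.mem B.vol B.lt
  obtain ⟨c, hc⟩ := i2 (by rw [e1, h3])
  have e2 : W K / (2 * Real.pi) = rr a b := by
    rw [← h3]; field_simp
  rw [e2] at hc
  rw [hc] at j2 j3 k1 k2
  obtain ⟨d1, d2⟩ := hDISC1 a b p c hb hab hp j3 j2 k2
  refine ⟨d1, ?_⟩
  rw [k1, frontier_closedBall c hr.ne', d2]

theorem exist (hELL : S_ELL) (hJOR : S_JOR) (hCRO : S_CRO) (hISO : S_ISO) (hCOMP0 : S_COMP0)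
    (hDISC2 : S_DISC2) {a b : ℝ} {p : E2} (hb : 0 < b) (hab : b ≤ a) (hp : p ∈ bdE a b)
    (hc : Cond a b p) : ∃ γ : ℝ → E2, Shortest a b p γ := by
  have hpi := Real.pi_pos
  have hr := rr_pos hb hab
  obtain ⟨d1, d2⟩ := hDISC2 a b p hb hab hp hc
  obtain ⟨γ, g1, -, g3⟩ := hCOMP0 a b p (closedBall (cen a b p) (rr a b)) hb hab (body_ball _ hr) d1 d2
    (by rw [vol_ball _ hr.le, AA_eq hb hab])
  rw [W_ball _ hr.le] at g3
  refine ⟨γ, g1, fun γ' h' => g3.trans ?_⟩
  obtain ⟨j1, j2, j3, j4, -⟩ := hJOR a b p γ' hb hab h'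
  refine le_trans ?_ (hCRO γ' h'.simple)
  apply ENNReal.ofReal_le_ofReal
  have i1 := (hISO _ j1).1
  have hWp := W_pos j1
  refine le_of_sq_le_sq ?_ hWp.le
  calc (2 * Real.pi * rr a b) ^ 2 = 4 * Real.pi * AA a b := by rw [AA_eq hb hab]; ring
    _ ≤ 4 * Real.pi * volume.real (convexHull ℝ (γ' '' Icc 0 1)) := by
        apply mul_le_mul_of_nonneg_left j4 (by positivity)
    _ ≤ _ := i1

end Pool.Agent.H741.EL
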