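import Pool.Graph.R_seed8.Y508.Basic

/-!
# Project EL (MP_7791e4_an, Q2): shortest area-bisecting closed curves in an ellipse through a boundary point

`E2` is the Euclidean plane, `pt x y` the point with these coordinates, `ev θ` the unit vector of direction
`θ`, `ip x θ` the scalar product of `x` and `ev θ`, `hs K` the support function of `K`, `W K` its integral
over a period (Cauchy: the perimeter of the convex body `K`); `Body K`: compact, convex, with an interior
point. All of these are in `Pool.Graph.R_seed8.Y508.Basic` (namespace `Pool.Agent.Y508`).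
-/

set_option autoImplicit false
open MeasureTheory Metric Set Filter Topology

namespace Pool.Agent.H741.EL
open Pool.Agent.Y508

/-- the closed region `E` bounded by the ellipse with semi-axes `a`, `b` -/
def Ell (a b : ℝ) : Set E2 := {x | (x 0 / a) ^ 2 + (x 1 / b) ^ 2 ≤ 1}

/-- the ellipse `∂E` -/
def bdE (a b : ℝ) : Set E2 := {x | (x 0 / a) ^ 2 + (x 1 / b) ^ 2 = 1}

/-- the interior of `E` -/
def inE (a b : ℝ) : Set E2 := {x | (x 0 / a) ^ 2 + (x 1 / b) ^ 2 < 1}

/-- `γ`, on the parameter interval `[0, 1]`, is a simple closed curve -/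
structure SimpleClosed (γ : ℝ → E2) : Prop where
  cont : ContinuousOn γ (Icc 0 1)
  closed : γ 0 = γ 1
  inj : InjOn γ (Ico 0 1)

/-- the length of the curve -/
noncomputable def len (γ : ℝ → E2) : ENNReal := eVariationOn γ (Icc 0 1)

/-- Admissible closed curves through the point `p` of the ellipse: rectifiable simple closed curves in `E`
through `p` such that `E° \ γ` has exactly two components, each of them simply connected and of area
`π a b / 2`. (Two disjoint connected nonempty open sets with union `E° \ γ` are its components.) -/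
structure Adm (a b : ℝ) (p : E2) (γ : ℝ → E2) : Prop where
  simple : SimpleClosed γ
  rect : len γ ≠ ⊤
  sub : γ '' Icc 0 1 ⊆ Ell a b
  mem : p ∈ γ '' Icc 0 1
  split : ∃ U V : Set E2, IsOpen U ∧ IsOpen V ∧ Disjoint U V ∧ U ∪ V = inE a b \ γ '' Icc 0 1 ∧
    SimplyConnectedSpace U ∧ SimplyConnectedSpace V ∧
    volume U = ENNReal.ofReal (Real.pi * a * b / 2) ∧ volume V = ENNReal.ofReal (Real.pi * a * b / 2)

/-- shortest admissible closed curves through `p` -/
def Shortest (a b : ℝ) (p : E2) (γ : ℝ → E2) : Prop :=
  Adm a b p γ ∧ ∀ γ' : ℝ → E2, Adm a b p γ' → len γ ≤ len γ'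

/-- the condition for existence -/
def Cond (a b : ℝ) (p : E2) : Prop :=
  2 * b * (a ^ 2 - b ^ 2) * (p 0) ^ 2 < a ^ 4 * (2 * b - a) ∨ (a ^ 3 = 2 * b ^ 3 ∧ p 1 = 0)

/-! ### Auxiliary notions of the proof -/

/-- half of the area of `E` -/
noncomputable def AA (a b : ℝ) : ℝ := Real.pi * a * b / 2

/-- the radius of the disc of area `AA a b` -/
noncomputable def rr (a b : ℝ) : ℝ := Real.sqrt (a * b / 2)

/-- the support function of `E` -/
noncomputable def hE (a b θ : ℝ) : ℝ := Real.sqrt (a ^ 2 * Real.cos θ ^ 2 + b ^ 2 * Real.sin θ ^ 2)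

/-- the point of the ellipse with outer normal `ev θ` -/
noncomputable def qE (a b θ : ℝ) : E2 := pt (a ^ 2 * Real.cos θ / hE a b θ) (b ^ 2 * Real.sin θ / hE a b θ)

/-- `K` is a convex body in `E` which contains `p`, has half the area of `E`, and `E° \ K` is connected -/
structure Cfg (a b : ℝ) (p : E2) (K : Set E2) : Prop where
  hb : 0 < b
  hab : b ≤ a
  hp : p ∈ bdE a b
  body : Body K
  sub : K ⊆ Ell a b
  mem : p ∈ K
  vol : volume.real K = AA a b
  conn : IsPreconnected (inE a b \ K)

/-- `K'` is a convex body in `E` containing `p`, of more than half of the area of `E`, whose ratio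
perimeter²/area is smaller than that of `K` (where `K` has half of the area of `E`) -/
structure Better (a b : ℝ) (p : E2) (K K' : Set E2) : Prop where
  body : Body K'
  sub : K' ⊆ Ell a b
  mem : p ∈ K'
  vol : AA a b < volume.real K'
  lt : AA a b * W K' ^ 2 < volume.real K' * W K ^ 2

end Pool.Agent.H741.EL
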