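import Pool.Agent.H741.EL.Defs

/-!
# Project EL: the three regimes of the condition
-/

set_option autoImplicit false
open MeasureTheory Metric Set Filter Topology

namespace Pool.Agent.H741.EL
open Pool.Agent.Y508

theorem eq_of_bdE {a b : ℝ} {p : E2} (ha : 0 < a) (hb : 0 < b) (hp : p ∈ bdE a b) :
    b ^ 2 * (p 0) ^ 2 + a ^ 2 * (p 1) ^ 2 = a ^ 2 * b ^ 2 := by
  have h : (p 0 / a) ^ 2 + (p 1 / b) ^ 2 = 1 := hp
  rw [div_pow, div_pow] at h
  field_simp at h
  linarith

theorem sq_le_of_bdE {a b : ℝ} {p : E2} (ha : 0 < a) (hb : 0 < b) (hp : p ∈ bdE a b) :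
    (p 0) ^ 2 ≤ a ^ 2 := by
  have h := eq_of_bdE ha hb hp
  have h2 : b ^ 2 * (p 0) ^ 2 ≤ b ^ 2 * a ^ 2 := by nlinarith [sq_nonneg (a * p 1)]
  exact le_of_mul_le_mul_left h2 (by positivity)

theorem cond_all {a b : ℝ} (hb : 0 < b) (hab : b ≤ a) :
    (∀ p ∈ bdE a b, Cond a b p) ↔ a ^ 3 ≤ 2 * b ^ 3 := by
  have ha : 0 < a := hb.trans_le hab
  constructor
  · intro h
    have hp : (pt a 0 : E2) ∈ bdE a b := by
      show (a / a) ^ 2 + (0 / b) ^ 2 = 1
      rw [div_self ha.ne']; norm_num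
    rcases h _ hp with h1 | ⟨h1, -⟩
    · rw [pt_zero] at h1
      have h2 : 0 < a ^ 2 * (2 * b ^ 3 - a ^ 3) := by nlinarith
      have h3 : 0 < 2 * b ^ 3 - a ^ 3 := by
        by_contra hc
        push Not at hc
        have : a ^ 2 * (2 * b ^ 3 - a ^ 3) ≤ 0 := mul_nonpos_of_nonneg_of_nonpos (by positivity) hc
        linarith
      linarith
    · exact h1.le
  · intro h p hp
    have h0 := eq_of_bdE ha hb hp
    have h1 := sq_le_of_bdE ha hb hp
    have key : 2 * b * (a ^ 2 - b ^ 2) * a ^ 2 = a ^ 4 * (2 * b - a) - a ^ 2 * (2 * b ^ 3 - a ^ 3) := by ring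
    have hc : 0 ≤ 2 * b * (a ^ 2 - b ^ 2) := by
      have : 0 ≤ a ^ 2 - b ^ 2 := by nlinarith
      positivity
    rcases h.lt_or_eq with h2 | h2
    · left
      have h3 : 0 < a ^ 2 * (2 * b ^ 3 - a ^ 3) := mul_pos (by positivity) (by linarith)
      have h4 := mul_le_mul_of_nonneg_left h1 hc
      linarith
    · by_cases hy : p 1 = 0
      · exact Or.inr ⟨h2, hy⟩
      · left
        have h3 : (p 0) ^ 2 < a ^ 2 := by
          have : 0 < (p 1) ^ 2 := by positivity
          have h5 : b ^ 2 * (p 0) ^ 2 < b ^ 2 * a ^ 2 := by nlinarith [mul_pos (pow_pos ha 2) this]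
          exact lt_of_mul_lt_mul_left h5 (by positivity)
        have hlt : b < a := by
          rcases hab.lt_or_eq with h6 | h6
          · exact h6
          · rw [h6] at h2
            have : 0 < a ^ 3 := by positivity
            linarith
        have hc' : 0 < 2 * b * (a ^ 2 - b ^ 2) := by
          have : 0 < a ^ 2 - b ^ 2 := by nlinarith
          positivity
        have h4 := mul_lt_mul_of_pos_left h3 hc'
        rw [h2] at key
        linarith

theorem cond_some {a b : ℝ} (hb : 0 < b) (hab : b ≤ a) :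
    (∃ p ∈ bdE a b, Cond a b p) ↔ a < 2 * b := by
  have ha : 0 < a := hb.trans_le hab
  constructor
  · rintro ⟨p, hp, h | ⟨h, -⟩⟩
    · by_contra hc
      push Not at hc
      have h1 : a ^ 4 * (2 * b - a) ≤ 0 := mul_nonpos_of_nonneg_of_nonpos (by positivity) (by linarith)
      have h2 : 0 ≤ 2 * b * (a ^ 2 - b ^ 2) * (p 0) ^ 2 := by
        have : 0 ≤ a ^ 2 - b ^ 2 := by nlinarith
        positivity
      linarith
    · by_contra hc
      push Not at hc
      have h1 : (2 * b) ^ 3 ≤ a ^ 3 := pow_le_pow_left₀ (by positivity) hc 3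
      have h2 : 0 < b ^ 3 := by positivity
      nlinarith
  · intro h
    refine ⟨pt 0 b, ?_, Or.inl ?_⟩
    · show (0 / a) ^ 2 + (b / b) ^ 2 = 1
      rw [div_self hb.ne']; norm_num
    · rw [pt_zero]
      have : 0 < a ^ 4 * (2 * b - a) := mul_pos (by positivity) (by linarith)
      simpa using this

end Pool.Agent.H741.EL
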