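import Pool.Agent.H741.EL.Asm
import Pool.Agent.H741.EL.Reg
import Pool.Agent.H286.EL.SEP
import Pool.Agent.H20.EL.JCT
import Pool.Agent.H105.EL.JOR
import Pool.Agent.H25.EL.SC
import Pool.Agent.H935.EL.CURVE
import Pool.Agent.H52.EL.CRO
import Pool.Agent.H268.EL.ISO
import Pool.Agent.H8.EL.BM
import Pool.Agent.H124.EL.ELL
import Pool.Agent.H767.EL.QQ
import Pool.Agent.H728.EL.DISC2
import Pool.Agent.H922.EL.DISC1
import Pool.Agent.H106.EL.MIX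
import Pool.Agent.H314.EL.COMP0
import Pool.Agent.H603.EL.COMP
import Pool.Agent.H670.EL.DICH
import Pool.Agent.H230.EL.ARC
import Pool.Agent.H367.EL.HALF
import Pool.Agent.H179.EL.PINC
import Pool.Agent.H379.EL.PCOST
import Pool.Agent.H81.EL.PERT
import Pool.Agent.H412.EL.CA
import Pool.Agent.H727.EL.ZZ
import Pool.Agent.H484.EL.CB
import Pool.Agent.H763.EL.CC
import Pool.Agent.H356.EL.CD

/-!
# Project EL: all parts together
-/

set_option autoImplicit false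
open MeasureTheory Metric Set Filter Topology

namespace Pool.Agent.H741.EL
open Pool.Agent.Y508

theorem main (a b : ℝ) (hb : 0 < b) (hab : b ≤ a) :
    (∀ p ∈ bdE a b, (∃ γ : ℝ → E2, Adm a b p γ) ∧ ((∃ γ : ℝ → E2, Shortest a b p γ) ↔ Cond a b p) ∧
      ∀ γ : ℝ → E2, Shortest a b p γ → γ '' Icc 0 1 = sphere (cen a b p) (rr a b)) ∧
    ((∀ p ∈ bdE a b, ∃ γ : ℝ → E2, Shortest a b p γ) ↔ a ^ 3 ≤ 2 * b ^ 3) ∧
    ((∃ p ∈ bdE a b, ∃ γ : ℝ → E2, Shortest a b p γ) ↔ a < 2 * b) := by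
  have hELL : S_ELL := t_ELL
  have hQQ : S_QQ := Pool.Agent.H767.EL.t_QQ
  have hSEP : S_SEP := Pool.Agent.H286.EL.t_SEP
  have hJCT : S_JCT := Pool.Agent.H20.EL.t_JCT hSEP
  have hJOR : S_JOR := t_JOR hJCT hELL
  have hSC : S_SC := Pool.Agent.H25.EL.t_SC
  have hCURVE : S_CURVE := Pool.Agent.H935.EL.t_CURVE
  have hCRO : S_CRO := Pool.Agent.H52.EL.CRO.t_CRO
  have hISO : S_ISO := Pool.Agent.H268.EL.t_ISO
  have hBM : S_BM := Pool.Agent.H8.EL.t_BM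
  have hDISC1 : S_DISC1 := Pool.Agent.H922.ELD.t_DISC1 hELL
  have hMIX : S_MIX := Pool.Agent.H106.EL.t_MIX
  have hDISC2 : S_DISC2 := Pool.Agent.H728.EL.t_DISC2 hELL
  have hCOMP0 : S_COMP0 := Pool.Agent.H314.EL.t_COMP0 hSC hCURVE hELL
  have hCOMP : S_COMP := Pool.Agent.H603.EL.t_COMP hCOMP0 hELL
  have hDICH : S_DICH := Pool.Agent.H670.EL.t_DICH hELL hQQ
  have hARC : S_ARC := Pool.Agent.H230.EL.t_ARC hELL hQQ hDICH
  have hHALF : S_HALF := Pool.Agent.H367.EL.t_HALF hELL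
  have hPINC : S_PINC := Pool.Agent.H179.EL.t_PINC hELL hQQ
  have hPCOST : S_PCOST := Pool.Agent.H379.EL.t_PCOST
  have hPERT : S_PERT := Pool.Agent.H81.EL.t_PERT hBM hELL hMIX hPINC hPCOST
  have hCA : S_CA := t_CA hQQ
  have hZZ : S_ZZ := Pool.Agent.H727.EL.t_ZZ hELL hQQ
  have hCB : S_CB := Pool.Agent.H484.EL.t_CB hZZ hQQ
  have hCC : S_CC := Pool.Agent.H763.EL.t_CC hZZ hQQ
  have hCD : S_CD := Pool.Agent.H356.EL.t_CD hZZ hQQ
  have hiff : ∀ p ∈ bdE a b, ((∃ γ : ℝ → E2, Shortest a b p γ) ↔ Cond a b p) := fun p hp =>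
    ⟨fun ⟨γ, hγ⟩ => (shape hQQ hARC hHALF hPERT hCA hCB hCC hCD hJOR hCRO hISO hCOMP hDISC1
      hb hab hp hγ).1, fun h => exist hELL hJOR hCRO hISO hCOMP0 hDISC2 hb hab hp h⟩
  refine ⟨fun p hp => ⟨exists_adm hELL hCOMP hb hab hp, hiff p hp, fun γ hγ =>
    (shape hQQ hARC hHALF hPERT hCA hCB hCC hCD hJOR hCRO hISO hCOMP hDISC1 hb hab hp hγ).2⟩, ?_, ?_⟩
  · rw [← cond_all hb hab]
    exact ⟨fun h p hp => (hiff p hp).1 (h p hp), fun h p hp => (hiff p hp).2 (h p hp)⟩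
  · rw [← cond_some hb hab]
    exact ⟨fun ⟨p, hp, h⟩ => ⟨p, hp, (hiff p hp).1 h⟩, fun ⟨p, hp, h⟩ => ⟨p, hp, (hiff p hp).2 h⟩⟩

end Pool.Agent.H741.EL
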