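import Pool.Agent.H741.EL.Defs

/-!
# Project EL: statements of the parts

Each part `XX` is a proposition `S_XX`; deliver a file with `theorem t_XX (h : S_DEP) ... : S_XX` (the
dependencies listed in the docstring as hypotheses, in that order), imports `Pool.Agent.H741.EL.Stm` and
library modules. Useful library: `Pool.Graph.R_seed8.Y508.Basic` (`le_hs`, `exists_hs`, `hs_le`, `hs_mono`,
`cont_hs`, `mem_of_ip_le`, `hs_arc`, `width_pos`, `ip_arc`, ...), `Pool.Graph.R_seed8.Y508.PerimUp`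
(`perim_le`, `exists_support`), `Pool.Graph.R_seed8.Y508.PerimLow` (`exists_param`, `arc_ge`, `perim_eq`),
`Pool.Graph.R_pool_sql_team_seeded_3997aac3.Q188.Str.Basic` (`body_hull`, `hs_hull`: the hull of a body and a
point, its support function is the maximum), `Pool.Graph.R_seed8.Y508.FP.Fn` (`compact_hull`, `hs_hull`).
No straight double quotes and no string literals in the files.
-/

set_option autoImplicit false
open MeasureTheory Metric Set Filter Topology

namespace Pool.Agent.H741.EL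
open Pool.Agent.Y508

/-! ### A. Topology of the plane -/

/-- SEP (60 min, no deps). A simple closed curve in `ℂ` has a bounded complementary component.
Proof. Let `A = γ '' [0, 1/2]`, `B = γ '' [1/2, 1]`, `x = γ 0 = γ 1`, `y = γ (1/2)`; `A ∩ B = {x, y}`,
`x ≠ y`, `Γ = A ∪ B`. Suppose all components of `Γᶜ` are unbounded; then `Γᶜ` is connected (two unbounded
components of the complement of a compact set agree: `unb_eq` in `Pool.Graph.R_seed8.Helper265.JcD`).
CLAIM: `f z = (y - z) / (x - z)` has a continuous logarithm on `Aᶜ` (and likewise on `Bᶜ`): consider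
`F (z, s) = (γ (s / 2) - z) / (x - z)` on `Aᶜ × [0, 1]`, continuous, never zero, `F (z, 0) = 1`; by the
homotopy lifting property of the covering map `exp` (Mathlib: `Complex.isCoveringMap_exp` or
`Complex.isCoveringMapOn_exp`, `IsCoveringMap.exists...lift...`/`liftHomotopy`; or by hand: on a compact
piece subdivide `[0,1]` and use the principal branch for ratios close to one; the lift is unique for each
`z`, so the local constructions agree) there is a continuous `L` on `Aᶜ × [0,1]` with `L (z, 0) = 0`,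
`exp L = F`; take `L_A z = L (z, 1)`. Similarly `L_B` on `Bᶜ`. On the connected set
`Γᶜ = Aᶜ ∩ Bᶜ` the continuous function `L_A - L_B` takes values in `2 π i ℤ`, hence is constant; subtract
the constant. So `L_A`, `L_B` glue to a continuous logarithm of `f` on `Aᶜ ∪ Bᶜ = {x, y}ᶜ` (both sets are
open). On a small circle `x + ρ e^{iθ}` (`ρ < |x - y|`) the factor `y - z` has a continuous logarithm
(principal branch of `(y - z)/(y - x)`, whose real part is positive), so `z - x = ρ e^{iθ}` would have a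
continuous logarithm `g (θ)` of period `2 π`, but `g θ - i θ` is constant: contradiction.
(See also `log_star` in `Helper265.JcA`, `Pool.Graph.R_pool_sql_team_seeded_620a6dc7.Helper188_Cone.Logs`.) -/
def S_SEP : Prop := ∀ γ : ℝ → ℂ, ContinuousOn γ (Icc 0 1) → γ 0 = γ 1 → InjOn γ (Ico 0 1) →
  ∃ z, z ∉ γ '' Icc 0 1 ∧ Bornology.IsBounded (connectedComponentIn (γ '' Icc 0 1)ᶜ z)

/-- JCT (50 min, deps SEP). The Jordan curve theorem in `E2`. Transfer to `ℂ`
(`Complex.orthonormalBasisOneI.repr`, an isometry `ℂ ≃ EuclideanSpace ℝ (Fin 2)`), then SEP gives a bounded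
component, `jordan_one` (`Pool.Graph.R_seed8.Helper265.JcE`) says it is unique, `unb_ex`, `unb_eq`
(`Helper265.JcD`) give exactly one unbounded component; `frontier_all` (`Pool.Graph.R_seed8.W675.SqC`: the
frontier of a nonempty bounded open set disjoint from the curve with frontier in the curve is the whole
curve; it uses periodic parametrisations `Loop`, `Inj`) for the inside. For the outside `X`: `frontier X ⊆ Γ`
(`aux_frontier` in `Helper265.JcC`) and `jordan_facts` (`Helper265.JcF`) with `D = Ω`: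
`Ωᶜ ⊆ closure ((closure Ω)ᶜ)`, where `closure Ω = Ω ∪ Γ`, so `(closure Ω)ᶜ = X` and
`Γ ⊆ closure X`. -/
def S_JCT : Prop := ∀ γ : ℝ → E2, SimpleClosed γ → ∃ Ω X : Set E2, IsOpen Ω ∧ IsOpen X ∧
  IsConnected Ω ∧ IsConnected X ∧ Disjoint Ω X ∧ Ω ∪ X = (γ '' Icc 0 1)ᶜ ∧ Bornology.IsBounded Ω ∧
  ¬ Bornology.IsBounded X ∧ frontier Ω = γ '' Icc 0 1 ∧ frontier X = γ '' Icc 0 1

/-- JOR (50 min, deps JCT ELL). Consequences for an admissible curve, `Γ = γ '' [0,1]`, `K = conv Γ`.
Proof. `K` is compact, convex, contained in the convex set `E`. With `Ω, X` from JCT: `Ω ⊆ K`, because `Kᶜ`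
is connected, unbounded and disjoint from `Γ` (complement of a compact convex set in the plane), so
`Kᶜ ⊆ X` (a connected set disjoint from `Γ` lies in `Ω` or `X`; `Ω` is bounded). Hence `interior K ≠ ∅`, and
`Ω ⊆ interior K ⊆ interior E = E°`. So `Ω ⊆ E° \ Γ = U ∪ V`; being connected, `Ω ⊆ U` or `Ω ⊆ V`, say
`Ω ⊆ U`. `U` is connected (simply connected spaces are path connected) and disjoint from `Γ`, it meets `Ω`,
so `U ⊆ Ω`. Thus `U = Ω` has area `AA`, so `AA ≤ |K|`, and `V = (E° \ Γ) \ Ω`.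
Suppose `|K| ≤ AA`. `interior K \ closure Ω` is open of measure zero, so empty: `interior K ⊆ closure Ω`.
`Γ ∩ interior K = ∅`: a point of it is in the closure of `X`, so `X` meets `interior K ⊆ closure Ω`, but `X`
is open and disjoint from `Ω`: contradiction. So `Γ ⊆ frontier K`. Conversely `frontier K ⊆ K =
closure (interior K) ⊆ closure Ω = Ω ∪ Γ` and `Ω ⊆ interior K`, so `frontier K ⊆ Γ`. Then
`Ω = interior K`: `interior K ⊆ Ω ∪ Γ` and `Γ ∩ interior K = ∅`. Finally
`V = E° \ Γ \ Ω = E° \ K` is connected. -/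
def S_JOR : Prop := ∀ (a b : ℝ) (p : E2) (γ : ℝ → E2), 0 < b → b ≤ a → Adm a b p γ →
  Body (convexHull ℝ (γ '' Icc 0 1)) ∧ convexHull ℝ (γ '' Icc 0 1) ⊆ Ell a b ∧
  p ∈ convexHull ℝ (γ '' Icc 0 1) ∧ AA a b ≤ volume.real (convexHull ℝ (γ '' Icc 0 1)) ∧
  (volume.real (convexHull ℝ (γ '' Icc 0 1)) ≤ AA a b →
    γ '' Icc 0 1 = frontier (convexHull ℝ (γ '' Icc 0 1)) ∧
      IsPreconnected (inE a b \ convexHull ℝ (γ '' Icc 0 1)))

/-- SC (90 min, no deps). If a convex body `K` in a convex body `E` meets `∂E` only in `p`, then `E° \ K` is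
simply connected. Proof. Let `o ∈ interior K`; translate so that `o = 0` and rotate so that `p` is on the
negative half of the first axis (or use the branch of the argument cut along the ray through `p`). With the
gauges `g = gauge K`, `h = gauge E` (Mathlib: `gauge`, continuous for convex neighbourhoods of `0`,
`gauge_lt_one_iff_mem_interior`, `gauge_le_one_iff_mem_closure`): `E° \ K = {z : h z < 1 < g z}`, `h ≤ g`,
`h z < g z` for every `z ≠ 0` which is not a positive multiple of `p` (the boundary point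
`z / g z` of `K` would be in `∂E`), and `h z = g z` for the positive multiples of `p` (so they are not in
`E° \ K`). Hence with `u = e^{iθ}`, `θ ∈ (-π, π)`, the set `E° \ K` is
`{ρ u : 1 / g u < ρ < 1 / h u}`, and `(θ, τ) ↦ ((1 - τ) / g u + τ / h u) u` is a homeomorphism of
`(-π, π) × (0, 1)` onto `E° \ K` (inverse: `θ = arg z`, continuous off the negative axis, `τ` a rational
function of `‖z‖`, `g`, `h`). The rectangle is convex, hence contractible, hence simply connected
(`Convex.contractibleSpace`, `SimplyConnectedSpace.ofContractible`; transfer by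
`Homeomorph`/`HomotopyEquiv.simplyConnectedSpace` or `ContractibleSpace`). Alternatively show directly that
the identity is homotopic to a constant. -/
def S_SC : Prop := ∀ (E K : Set E2) (p : E2), Body E → Body K → K ⊆ E → K ∩ frontier E = {p} →
  SimplyConnectedSpace ↥(interior E \ K)

/-- CURVE (40 min, no deps). The boundary of a convex body is a simple closed curve of length at most `W K`.
Proof. `exists_param` (`Y508.PerimLow`) gives a continuous `c` with `c (2π) = c 0`, injective on `[0, 2π)`,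
onto the frontier; `γ t = c (2 π t)`. For a monotone sequence `t_0 ≤ ... ≤ t_n` in `[0, 1]`,
`edist (γ t_i) (γ t_{i+1}) ≤ μH[1] (γ '' [t_i, t_{i+1}))` (`arc_ge`); the images of the disjoint half-open
intervals are disjoint and measurable (images of Borel sets under an injective continuous map on a Polish
space: `MeasurableSet.image_of_continuousOn_injOn`), all in `frontier K`, so the sum is at most
`μH[1] (frontier K) ≤ ofReal (W K)` (`perim_le`). -/
def S_CURVE : Prop := ∀ K : Set E2, Body K → ∃ γ : ℝ → E2, SimpleClosed γ ∧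
  γ '' Icc 0 1 = frontier K ∧ len γ ≤ ENNReal.ofReal (W K)

/-! ### B. Inequalities -/

/-- CRO (15 min). Crofton: a closed curve is at least as long as the perimeter of its hull. Library:
`Pool.Agent.Y508.FP.cro` (`Pool.Graph.R_seed8.Y508.FP.Cro`) with `poly` (`...FP.Poly`), and
`Pool.Agent.Y508.FP.hs_hull` (`...FP.Fn`): `hs (convexHull ℝ R) = hs R` for compact `R`. -/
def S_CRO : Prop := ∀ γ : ℝ → E2, SimpleClosed γ →
  ENNReal.ofReal (W (convexHull ℝ (γ '' Icc 0 1))) ≤ len γ

/-- ISO (45 min). The isoperimetric inequality for convex bodies with the case of equality. Library: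
`S_SUPB` of `Pool.Graph.R_pool_sql_team_seeded_707910d6.T2H01.QI.Stm`, proved there from proved packages
(`pSUPB`, `pARE`, `pORT`, `pWIR`, `pQTR`, `pTRI`, `pCOV`; find the files `QI/SUPB.lean` etc.): for
`Ω = interior K` and `N ≥ 5` there is `a_N` with
`(h_j - r_N - ⟨a_N, n_j⟩)² ≤ 25 (N tan (π/N) r_N² - |Ω|)` for `j < N`, where `h_j` is the support function of
`Ω` (equal to that of `K`) at the angle `2 π j / N`, `r_N` the mean of the `h_j`. `r_N → W K / (2π)` (Riemann
sums: `Pool.Agent.Y508.riemann` in `Y508.PerimUp`), `N tan (π/N) → π`. So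
`0 ≤ 25 (W² / (4π) - |K|)` in the limit (`volume (frontier K) = 0`: `Convex.addHaar_frontier`). If equality
holds, with `R = W / (2π)`: the `a_N` are bounded (use two opposite pairs of directions for `4 | N`), take a
convergent subsequence `a_N → a` along `N = 4 m`; then `hs K θ = R + ip a θ` for all `θ` (continuity), and
`K = closedBall a R` by `mem_of_ip_le`. -/
def S_ISO : Prop := ∀ K : Set E2, Body K → 4 * Real.pi * volume.real K ≤ W K ^ 2 ∧
  (W K ^ 2 = 4 * Real.pi * volume.real K → ∃ c : E2, K = closedBall c (W K / (2 * Real.pi)))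

/-- BM (20 min). Brunn-Minkowski with a disc: library `bm_conv`
(`Pool.Graph.R_seed8.W291.RP.U2`, `k = 2`, `x ^ (2⁻¹) = √x`), `A` the translate `K - v`, `B` the disc. -/
def S_BM : Prop := ∀ (K D : Set E2) (v c : E2) (s t : ℝ), Body K → MeasurableSet D → volume D ≠ ⊤ →
  0 < s → 0 < t → t < 1 → (∀ x ∈ K, ∀ y ∈ closedBall c s, (1 - t) • (x - v) + t • y ∈ D) →
  (1 - t) * Real.sqrt (volume.real K) + t * Real.sqrt (Real.pi * s ^ 2) ≤ Real.sqrt (volume.real D)

/-! ### C. The ellipse -/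

/-- ELL (60 min). Elementary facts on the ellipse. Volume: `Ell a b` is the image of the unit disc under the
linear map `diag (a, b)` (`Measure.addHaar_image_linearMap`, `EuclideanSpace.volume_closedBall_fin_two`).
Support function: Cauchy-Schwarz, equality at `qE a b θ`. The last two: strict convexity of the square. -/
def S_ELL : Prop := ∀ a b : ℝ, 0 < b → b ≤ a → Body (Ell a b) ∧ interior (Ell a b) = inE a b ∧
  frontier (Ell a b) = bdE a b ∧ volume (Ell a b) = ENNReal.ofReal (Real.pi * a * b) ∧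
  (∀ θ, hs (Ell a b) θ = hE a b θ) ∧ (∀ θ, b ≤ hE a b θ) ∧
  (∀ x ∈ Ell a b, ∀ y ∈ Ell a b, x ≠ y → ∀ t : ℝ, 0 < t → t < 1 → (1 - t) • x + t • y ∈ inE a b) ∧
  (∀ x ∈ Ell a b, ∀ y ∈ inE a b, ∀ t : ℝ, 0 < t → t ≤ 1 → (1 - t) • x + t • y ∈ inE a b)

/-- QQ (60 min). The support points of the ellipse. (5): if `x ∈ Ell` and `hE ≤ ip x θ` then `x = qE θ`
(equality in Cauchy-Schwarz). (7), (8): orientation; with `qE θ = (a cos τ, b sin τ)` the determinant
`det (qE θ - qE θ₁, qE θ₂ - qE θ₁)` is `a b (sin (τ - τ₁) + sin (τ₂ - τ) - sin (τ₂ - τ₁))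
= 4 a b sin ((τ - τ₁)/2) sin ((τ₂ - τ)/2) sin ((τ₂ - τ₁)/2)`; or, without `τ`: multiply out, with
`h = hE θ` etc., `det = a² b² ( h₂ sin (θ - θ₁) + h₁ sin (θ₂ - θ) - h sin (θ₂ - θ₁) ) / (h h₁ h₂)` and use
that `q₁` is on the same side ... (strict support inequality: `ip (qE θ') θ < hE θ` unless `θ' ≡ θ`; e.g.
the numerator is positive because for `θ₂ - θ₁ < π` the meeting point `m` of the tangent lines at `q₁`, `q₂`
has `ip m θ = (h₂ sin (θ - θ₁) + h₁ sin (θ₂ - θ)) / sin (θ₂ - θ₁)`, ...). The choice `τ θ`, a continuous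
strictly increasing function with `τ (θ + 2π) = τ θ + 2π`, is cleanest:
`τ θ = θ + arg (...)`, with `cos τ = a cos θ / hE`, `sin τ = b sin θ / hE`; `τ θ - θ` has absolute value
`< π/2` and `tan τ = (b/a) tan θ`. -/
def S_QQ : Prop := ∀ a b : ℝ, 0 < b → b ≤ a →
  (∀ θ, qE a b θ ∈ bdE a b) ∧ (∀ θ, ip (qE a b θ) θ = hE a b θ) ∧ Continuous (qE a b) ∧
  (∀ θ, qE a b (θ + 2 * Real.pi) = qE a b θ) ∧
  (∀ θ, ∀ x ∈ Ell a b, hE a b θ ≤ ip x θ → x = qE a b θ) ∧
  (∀ x ∈ bdE a b, ∃ θ, x = qE a b θ) ∧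
  (∀ θ θ', qE a b θ = qE a b θ' → ∃ k : ℤ, θ' = θ + k * (2 * Real.pi)) ∧
  (∀ θ₁ θ₂ θ, θ₁ < θ → θ < θ₂ → θ₂ < θ₁ + 2 * Real.pi →
    0 < (qE a b θ 0 - qE a b θ₁ 0) * (qE a b θ₂ 1 - qE a b θ₁ 1) -
      (qE a b θ 1 - qE a b θ₁ 1) * (qE a b θ₂ 0 - qE a b θ₁ 0)) ∧
  (∀ θ₁ θ₂ θ, θ₁ < θ₂ → θ₂ < θ → θ < θ₁ + 2 * Real.pi →
    (qE a b θ 0 - qE a b θ₁ 0) * (qE a b θ₂ 1 - qE a b θ₁ 1) -
      (qE a b θ 1 - qE a b θ₁ 1) * (qE a b θ₂ 0 - qE a b θ₁ 0) < 0)

/-- the centre of the disc of radius `rr` touching the ellipse at `p` from inside -/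
noncomputable def cen (a b : ℝ) (p : E2) : E2 :=
  p - (rr a b / Real.sqrt ((p 0 / a ^ 2) ^ 2 + (p 1 / b ^ 2) ^ 2)) • pt (p 0 / a ^ 2) (p 1 / b ^ 2)

/-- DISC1 (60 min, deps ELL). Let `r = rr a b`. If the disc `closedBall c r` lies in `E`, contains `p`, and
`E° \ disc` is connected, then `c = cen a b p` and the condition holds.
Proof. Let `n` be the unit outer normal at `p`, `n = (x₀/a², y₀/b²) / √...`. The linear functional `⟨·, n⟩`
is at most `⟨p, n⟩` on `E`; `c + r n ∈ E` gives `⟨c, n⟩ + r ≤ ⟨p, n⟩`, and `‖p - c‖ ≤ r` gives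
`⟨p - c, n⟩ ≤ r`; so equality in Cauchy-Schwarz, `p - c = r n`, `c = cen a b p`.
KEY IDENTITY: write `p = (a C₀, b S₀)`, `q = (a C, b S)` with `C² + S² = 1 = C₀² + S₀²`,
`k = r a b / √(b² C₀² + a² S₀²)`; then
`‖q - c‖² - r² = (a² - k) (C - C₀)² + (b² - k) (S - S₀)²` (because
`⟨q - p, n⟩ = - (a b / 2) ((C - C₀)² + (S - S₀)²) / √(b² C₀² + a² S₀²)`). No point `q` of the ellipse is in
the open disc (which is in `E°`), so this is `≥ 0` for all `q`. `k ≤ b²`: if `S₀ ≠ 0` take
`(C, S) = (C₀, -S₀)`; if `S₀ = 0` take `(C, S) = (C₀ cos t, sin t)`, `t → 0`. If `k < b²` then the first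
alternative of `Cond` holds: `k < b²` iff `r² a² < b² (b² C₀² + a² S₀²)` iff
`a⁵ < 2 b (a⁴ - (a² - b²) x₀²)`. If `k = b²`: then `a > b` (if `a = b`, `k = b²/√2`). If `S₀ = 0` the second
alternative holds (`C₀² = 1`, `r² a² = b⁴`, i.e. `a³ = 2 b³`). If `S₀ ≠ 0`: the point `p' = (a C₀, - b S₀)`
is in the disc too, the chord from `p` to `p'` is in the disc, and it is the set of the points of `E` with
first coordinate `x₀`; the points `(± a, 0)` are not in the disc (identity: `(a² - b²) (C - C₀)² > 0`), so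
there are points of `E°` near them not in the disc, on both sides of the line `x = x₀`: contradiction to
connectedness. -/
def S_DISC1 : Prop := ∀ (a b : ℝ) (p c : E2), 0 < b → b ≤ a → p ∈ bdE a b →
  p ∈ closedBall c (rr a b) → closedBall c (rr a b) ⊆ Ell a b →
  IsPreconnected (inE a b \ closedBall c (rr a b)) → Cond a b p ∧ c = cen a b p

/-- DISC2 (45 min, deps ELL). Under the condition the disc with centre `cen a b p` lies in `E` and touches
the ellipse only at `p`. Proof. With the identity of DISC1: `‖q - c‖² - r² > 0` for every `q ≠ p` of the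
ellipse (`k < b² ≤ a²`, or `k = b²`, `a³ = 2 b³`, `S₀ = 0`, `C₀ = ± 1`: the value is
`(a² - b²) (C - C₀)²`, zero only if `C = C₀`, `S = 0`). So `disc \ {p}` is connected (e.g. it is the union of
the open disc and boundary points; or: star-shaped with respect to `c`), disjoint from the ellipse, and
contains `c`; `c ∈ E°`, because the segment from `p` to `c` minus `p` misses the ellipse and
`p - ε n ∈ E°` for small `ε`. (Alternatively: if `z` is in the disc and not in `E`, then the segment from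
`c` to `z` meets the ellipse in a point of the disc different from ... .) -/
def S_DISC2 : Prop := ∀ (a b : ℝ) (p : E2), 0 < b → b ≤ a → p ∈ bdE a b → Cond a b p →
  closedBall (cen a b p) (rr a b) ⊆ Ell a b ∧ closedBall (cen a b p) (rr a b) ∩ bdE a b = {p}

/-! ### D. Admissible curves from convex bodies -/

/-- COMP0 (30 min, deps SC CURVE ELL). A convex body of half the area touching the ellipse only in `p` gives
an admissible curve. `U = interior K` (convex: simply connected), `V = E° \ K`; `frontier K` and `interior K`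
are disjoint with union `K`; areas: `volume (frontier K) = 0` (`Convex.addHaar_frontier`);
`interior K ⊆ interior (Ell) = inE`; `K ∩ bdE = {p}` and `p ∈ frontier K` because `p ∉ interior K`. -/
def S_COMP0 : Prop := ∀ (a b : ℝ) (p : E2) (K : Set E2), 0 < b → b ≤ a → Body K → K ⊆ Ell a b →
  K ∩ bdE a b = {p} → volume.real K = AA a b →
  ∃ γ : ℝ → E2, Adm a b p γ ∧ γ '' Icc 0 1 = frontier K ∧ len γ ≤ ENNReal.ofReal (W K)

/-- COMP (40 min, deps COMP0 ELL). A convex body in `E` of more than half of the area which contains `p`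
gives an admissible curve of length at most `√(AA / |K|) W K`. Proof. `lam = √(AA / |K|) ∈ (0, 1)`,
`K' = p + lam (K - p)`: a body of area `lam² |K| = AA`, contained in `E`, meeting the ellipse only in `p` (ELL:
`(1 - lam) p + lam x ∈ inE` for `x ∈ E`, `x ≠ p`); `hs K' θ = (1 - lam) ip p θ + lam hs K θ`, and
`∫ ip p = 0` over a period, so `W K' = lam W K`. -/
def S_COMP : Prop := ∀ (a b : ℝ) (p : E2) (K : Set E2), 0 < b → b ≤ a → p ∈ bdE a b → Body K →
  K ⊆ Ell a b → p ∈ K → AA a b < volume.real K →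
  ∃ γ : ℝ → E2, Adm a b p γ ∧ len γ ≤ ENNReal.ofReal (Real.sqrt (AA a b / volume.real K) * W K)

/-! ### E. The contact set -/

/-- DICH (50 min, deps ELL QQ). The contact directions are connected one way or the other. Proof. Let
`q_i = qE θ_i`. Since `hs K θ_i = hE θ_i`, some `x ∈ K ⊆ E` has `ip x θ_i = hE θ_i`, so `q_i ∈ K` (QQ 5).
Let `D z = det (z - q₁, q₂ - q₁)` (the expression in QQ). The points of `E` with `D z = 0` are on the
segment `[q₁, q₂] ⊆ K` (a point of the line outside the segment is not in `E`: otherwise `q₁` or `q₂` would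
be in the interior of a segment of `E`, so in `inE`, by ELL; note `q₁ ≠ q₂` by QQ 7). So the connected set
`E° \ K` lies in `{D > 0}` or in `{D < 0}`. If it lies in `{D < 0}`: all points of `E°` with `D > 0` are in
`K`; for `θ ∈ (θ₁, θ₂)`, `D (qE θ) > 0`, and `qE θ` is the limit of the points `(1 - t) qE θ ∈ E°`, so
`qE θ ∈ K` and `hs K θ = hE θ` (`≤` since `K ⊆ E`). Similarly for `{D > 0}` and `θ ∈ (θ₂, θ₁ + 2π)`. -/
def S_DICH : Prop := ∀ (a b : ℝ) (p : E2) (K : Set E2), Cfg a b p K → ∀ θ₁ θ₂ : ℝ, θ₁ < θ₂ →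
  θ₂ < θ₁ + 2 * Real.pi → hs K θ₁ = hE a b θ₁ → hs K θ₂ = hE a b θ₂ →
  (∀ θ ∈ Icc θ₁ θ₂, hs K θ = hE a b θ) ∨ (∀ θ ∈ Icc θ₂ (θ₁ + 2 * Real.pi), hs K θ = hE a b θ)

/-- the contact directions form (modulo `2 π`) the arc `[α, β]` of length less than `π`, which contains `θp` -/
structure Arc (a b : ℝ) (K : Set E2) (θp α β : ℝ) : Prop where
  h1 : α ≤ θp
  h2 : θp ≤ β
  h3 : β - α < Real.pi
  on : ∀ θ ∈ Icc α β, hs K θ = hE a b θ
  off : ∀ θ ∈ Ioo β (α + 2 * Real.pi), hs K θ < hE a b θ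

/-- ARC (60 min, deps ELL QQ DICH). Proof. `N = {θ : hs K θ = hE θ}` is closed, `2π`-periodic, contains
`θp` (`ip p θp = hE θp`, QQ 2). Let `β = sup {t ∈ [θp, θp + 2π] : [θp, t] ⊆ N}`,
`α = inf {t ∈ [θp - 2π, θp] : [t, θp] ⊆ N}`; `[α, β] ⊆ N`. If `β - α ≥ π`: then `[α, α + π] ⊆ N`, so `K`
contains all `qE θ`, `θ ∈ [α, α + π]`. Let `ν = α + π/2`: then
`qE (α + π) = - qE α`; hmm, the half ellipse cut off by the line through `qE α` and `qE (α + π)` on the side
of the `qE θ`, `θ ∈ (α, α + π)`, is `H = {x ∈ E : 0 ≤ ip x ν'}` for the direction `ν'` orthogonal to `qE α`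
(on that side: QQ 8). `H ⊆ K`: `H` is the convex hull of its points on the ellipse (a point of `H` is on a
chord of `H` parallel to the cutting line, whose end points are on the ellipse in the closed half plane,
hence of the form `qE θ`, `θ ∈ [α, α + π]`, by QQ 9). `|H| = AA` by the symmetry `x ↦ -x`, and `|K| = AA`, so
`K = H`: otherwise a point of `K \ H` and a neighbourhood in `interior K` (as `K = closure (interior K)`,
`H` closed) would give `|K| > |H|`. If `β - α < π`: suppose `θ' ∈ N`, `β < θ' < α + 2π`. Then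
`θp < θ' < θp + 2π`, and DICH for `θp, θ'` gives `[θp, θ'] ⊆ N`, contradicting the choice of `β`, or
`[θ', θp + 2π] ⊆ N`, i.e. `[θ' - 2π, θp] ⊆ N`, contradicting that of `α`. (`hs K ≤ hE` always.) -/
def S_ARC : Prop := ∀ (a b : ℝ) (p : E2) (K : Set E2), Cfg a b p K → ∀ θp : ℝ, p = qE a b θp →
  (∃ α β, Arc a b K θp α β) ∨ (∃ ν : ℝ, K = {x | x ∈ Ell a b ∧ 0 ≤ ip x ν})

/-- HALF (50 min, deps ELL). A half ellipse is not optimal. Proof. Let `z = -ζ ev ν`, `ζ > 0` small, and
`K' = conv (K ∪ {z}) ⊆ E`, a body (`Q188.Str.Basic`: `body_hull`, `hs_hull`). There is a point `x` of the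
ellipse with `ip x ν = 0`, `‖x‖ ≥ b` (`x = t ev (ν + π/2)`), and `± x ∈ K`. Perimeter:
`hs K' θ = max (hs K θ) (ip z θ)`, `ip z θ = - ζ cos (θ - ν)`,
`hs K θ ≥ |ip x θ| ≥ b |sin (θ - ν)|`; so `max (ip z θ - hs K θ) 0 ≤ ζ`, and it is zero unless
`b |sin (θ - ν)| < ζ`; the set of those `θ` in a period has measure at most `2 π ζ / b`
(`|sin t| ≥ 2 t / π` on `[0, π/2]`), so `W K' ≤ W K + 2 π ζ² / b`. Area: `K'` contains `K` and the triangle
with vertices `x, -x, z`, whose interior is disjoint from `K` (`ip < 0`), of area `ζ ‖x‖ ≥ ζ b` (any lower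
bound `c ζ` with `c > 0` independent of `ζ` is enough), so `|K'| ≥ AA + b ζ`. Then
`AA (W + 2πζ²/b)² < (AA + b ζ) W²` for small `ζ > 0`. -/
def S_HALF : Prop := ∀ (a b : ℝ) (p : E2) (K : Set E2), Cfg a b p K →
  (∃ ν : ℝ, K = {x | x ∈ Ell a b ∧ 0 ≤ ip x ν}) → ∃ K', Better a b p K K'

/-! ### F. The perturbation -/

/-- The perturbed body: `(1 - t) conv ({p} ∪ (K - δ w)) + t conv ({p} ∪ disc (p - R ev θp) s)`. -/
noncomputable def mix (p : E2) (K : Set E2) (w : E2) (θp R s δ t : ℝ) : Set E2 :=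
  (fun z : E2 × E2 => (1 - t) • z.1 + t • z.2) ''
    (convexHull ℝ (insert p ((fun x => x - δ • w) '' K)) ×ˢ
      convexHull ℝ (insert p (closedBall (p - R • ev θp) s)))

/-- MIX (45 min). Elementary facts on `mix` (`body_hull`, `hs_hull` of `Q188.Str.Basic`, applied to the
translate of `K` and to the disc; `hs` of a disc with centre `c`: `ip c θ + s`; of a translate:
`hs K θ - δ ip w θ`; of a sum: additive). -/
def S_MIX : Prop := ∀ (p : E2) (K : Set E2) (w : E2) (θp R s δ t : ℝ), Body K → 0 < s → 0 ≤ t → t ≤ 1 →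
  Body (mix p K w θp R s δ t) ∧ p ∈ mix p K w θp R s δ t ∧
  (∀ θ, hs (mix p K w θp R s δ t) θ = (1 - t) * max (hs K θ - δ * ip w θ) (ip p θ) +
    t * max (ip p θ - R * Real.cos (θ - θp) + s) (ip p θ)) ∧
  (∀ x ∈ K, ∀ y ∈ closedBall (p - R • ev θp) s, (1 - t) • (x - δ • w) + t • y ∈ mix p K w θp R s δ t)

/-- the data of a successful perturbation: direction `w`, rate `c`, angle `φ₁` -/
structure Pert (a b : ℝ) (p : E2) (K : Set E2) (θp R s : ℝ) (w : E2) (c φ₁ : ℝ) : Prop where
  cpos : 0 < c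
  φpos : 0 < φ₁
  φlt : φ₁ < Real.pi
  near : ∀ φ : ℝ, |φ| ≤ φ₁ → s ≤ R * Real.cos φ ∧ 0 ≤ ip w (θp + φ)
  far : ∀ θ ∈ Icc (θp + φ₁) (θp + 2 * Real.pi - φ₁), hs K θ = hE a b θ →
    c * max (s - R * Real.cos (θ - θp)) 0 < ip w θ
  cost : (∫ θ in (0 : ℝ)..(2 * Real.pi), if hs K θ = ip p θ then max (ip w θ) 0 else 0) <
    c * (W K - 2 * Real.pi * R)

/-- PINC (60 min, deps ELL QQ). For small `δ` the perturbed body is in `E` (inequality of support
functions). Proof. Both sides are `2π`-periodic in `θ`, so it is enough to treat `θ = θp + φ`, `|φ| ≤ φ₁`,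
and `θ ∈ I = [θp + φ₁, θp + 2π - φ₁]`. Near: the second maximum is `ip p θ` (`s ≤ R cos φ`), the first one is
at most `max (hs K θ) (ip p θ) ≤ hE θ` as `0 ≤ ip w θ`, `δ > 0`; fine (`p ∈ K`, `hs K ≤ hE`, `0 ≤ cδ ≤ 1`).
Far: `ip p θ < hE θ` on the compact interval `I` (QQ 5, 7: `p = qE θp ≠ qE θ`), so
`ip p θ ≤ hE θ - m` with `m > 0`. With `B θ = max (s - R cos (θ - θp)) 0 ≤ B₀ = s + |R|`, the second maximum is
`ip p θ + B θ ≤ hE θ + B θ`. So it is enough that
`(1 - cδ) max (hs K θ - hE θ - δ ip w θ) (ip p θ - hE θ) + c δ B θ ≤ 0`. For the second entry: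
`(1 - cδ) m ≥ cδ B₀` for small `δ`. For the first one, with `D = hE - hs K ≥ 0` continuous: we need
`c δ B θ ≤ (1 - cδ) (D θ + δ ip w θ)` for all `θ ∈ I` if `δ` is small. Otherwise there are `δ_n → 0+`,
`θ_n ∈ I`, wlog `θ_n → θ*`, with `(1 - cδ_n) (D θ_n / δ_n + ip w θ_n) < c B θ_n`. If `D θ* > 0` the left side
tends to `+∞`, impossible; if `D θ* = 0` the left side is at least `(1 - cδ_n) ip w θ_n` (`D ≥ 0`), and in
the limit `ip w θ* ≤ c B θ*`, contradicting `far`. -/
def S_PINC : Prop := ∀ (a b : ℝ) (p : E2) (K : Set E2) (θp R s : ℝ) (w : E2) (c φ₁ : ℝ),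
  Cfg a b p K → p = qE a b θp → 0 < s → s < R → Pert a b p K θp R s w c φ₁ →
  ∀ᶠ δ in 𝓝[>] (0 : ℝ), ∀ θ, (1 - c * δ) * max (hs K θ - δ * ip w θ) (ip p θ) +
    (c * δ) * max (ip p θ - R * Real.cos (θ - θp) + s) (ip p θ) ≤ hE a b θ

/-- PCOST (40 min). First order expansion of the perimeter. Proof. `W K = ∫ (hs K θ - δ ip w θ)` as
`∫ ip w = 0`; so the quotient is `∫ max (ip w θ - g θ / δ) 0`, `g θ = hs K θ - ip p θ ≥ 0` (`p ∈ K`).
Dominated convergence (bound `‖w‖`): if `g θ = 0` the integrand is `max (ip w θ) 0`, if `g θ > 0` it is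
eventually `0`. -/
def S_PCOST : Prop := ∀ (p : E2) (K : Set E2) (w : E2), Body K → p ∈ K →
  Tendsto (fun δ : ℝ => ((∫ θ in (0 : ℝ)..(2 * Real.pi), max (hs K θ - δ * ip w θ) (ip p θ)) - W K) / δ)
    (𝓝[>] 0) (𝓝 (∫ θ in (0 : ℝ)..(2 * Real.pi), if hs K θ = ip p θ then max (ip w θ) 0 else 0))

/-- PERT (45 min, deps BM ELL MIX PINC PCOST). A successful perturbation gives a better body. Proof. Take
`δ > 0` small, `t = c δ`, `K' = mix p K w θp R s δ t`. Body, contains `p`: MIX; `K' ⊆ E`: PINC and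
`mem_of_ip_le` (`hs E = hE`, ELL). Perimeter:
`W K' = (1 - t) ∫ max (hs K - δ ip w) (ip p) + t ∫ max (ip p θ - R cos (θ - θp) + s) (ip p θ)`, the second
integral is at most `∫ (ip p θ + R - R cos (θ - θp)) = 2 π R` (`s ≤ R`); the first one is at most
`W K + δ x` with `x < c (W K - 2πR)` fixed, by PCOST and `cost` (choose `x` between, `x ≥ 0`). So
`W K' ≤ W K + (1 - t) δ x - cδ (W K - 2πR) < W K`. Area: BM with `D = K'`, the disc of radius `s > rr`:
`√|K'| ≥ (1 - t) √AA + t √(π s²) > √AA` since `π rr² = AA`. So `AA < |K'|` and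
`AA (W K')² < |K'| (W K)²` (`W K' > 0`: `W_pos`). -/
def S_PERT : Prop := ∀ (a b : ℝ) (p : E2) (K : Set E2) (θp R s : ℝ) (w : E2) (c φ₁ : ℝ),
  Cfg a b p K → p = qE a b θp → rr a b < s → s < R → 2 * Real.pi * R < W K →
  Pert a b p K θp R s w c φ₁ → ∃ K', Better a b p K K'

/-- CA (30 min, deps QQ). The case `α = θp = β`. `w = 0`, `c = 1`, `φ₁ > 0` small with
`s ≤ R cos φ` for `|φ| ≤ φ₁` (`s < R`). `far` is vacuous: `θ ∈ [θp + φ₁, θp + 2π - φ₁] ⊆ (θp, θp + 2π)` has
`hs K θ < hE θ`. `cost`: the integral is zero. -/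
def S_CA : Prop := ∀ (a b : ℝ) (p : E2) (K : Set E2) (θp R s : ℝ), Cfg a b p K → p = qE a b θp →
  0 < s → s < R → 2 * Real.pi * R < W K → Arc a b K θp θp θp → ∃ w c φ₁, Pert a b p K θp R s w c φ₁

/-- ZZ (40 min, deps ELL QQ). Normal directions of `K` at `p`: if the contact directions accumulate at `θp`
from the left (right), there are no normal directions at `p` on the left (right). Proof of the first part.
Suppose `hs K θ = ip p θ`, `θp - π ≤ θ < θp`. If `θ = θp - π`: `hs K θp = ip p θp`, `hs K (θp - π) =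
- ip p θp` contradict `width_pos`. Otherwise for `θ' ∈ (θ, θp)` the arc inequality (`hs_arc`:
`hs K θ' sin (θp - θ) ≤ hs K θ sin (θp - θ') + hs K θp sin (θ' - θ)`) gives `hs K θ' = ip p θ'`; for
`θ' ∈ (max α θ, θp)` also `hs K θ' = hE θ'`, so `ip p θ' = hE θ'` and `p = qE θ'` (QQ 5), contradicting QQ 7. -/
def S_ZZ : Prop := ∀ (a b : ℝ) (p : E2) (K : Set E2) (θp α β : ℝ), Cfg a b p K → p = qE a b θp →
  Arc a b K θp α β → (α < θp → ∀ θ ∈ Ico (θp - Real.pi) θp, ip p θ < hs K θ) ∧
    (θp < β → ∀ θ ∈ Ioc θp (θp + Real.pi), ip p θ < hs K θ)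

/-- CB (45 min, deps ZZ QQ). The case `α < θp < β`. `ω = (α + β)/2`, `w = ev ω`, `ip w θ = cos (θ - ω)`,
`m = cos ((β - α)/2) > 0`, `c = m / (2 (s + R))`, `φ₁` small. `near`: `|θp + φ - ω| < π/2` for small `φ`.
`far`: `θ ∈ [θp + φ₁, θp + 2π - φ₁]` with `hs K θ = hE θ` is in `[α, β]` or in `[α + 2π, β + 2π]` (Arc), so
`cos (θ - ω) ≥ m > c (s + R) ≥ c max ...`. `cost`: by ZZ the integrand vanishes for `θ ≠ θp` modulo `2π`, so
the integral is zero (periodicity, or: nonzero at no more than finitely many points of `[0, 2π]`). -/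
def S_CB : Prop := ∀ (a b : ℝ) (p : E2) (K : Set E2) (θp α β R s : ℝ), Cfg a b p K → p = qE a b θp →
  0 < s → s < R → 2 * Real.pi * R < W K → Arc a b K θp α β → α < θp → θp < β →
  ∃ w c φ₁, Pert a b p K θp R s w c φ₁

/-- CC (60 min, deps ZZ QQ). The case `α < θp = β`. For small `η > 0` let `w = ev (θp - π/2 + η)`, so
`ip w (θp + φ) = sin (η - φ)`. Let `φ₀ ∈ (0, π/2)` be such that `s ≤ R cos φ` for `|φ| ≤ φ₀`,
`l = θp - α ∈ (0, π)`, `m = min (sin φ₀) (sin ((π + l)/2)) > 0`, `c = m / (2 (s + R))` (independent of `η`),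
`0 < η < (π - l)/2`, `η ≤ φ₀`, `η ≤ π/4`, `φ₁ = η`. `near`: `sin (η - φ) ≥ 0` for `|φ| ≤ η`. `far`: the `θ` in
question are (mod `2π`) `θp + φ` with `φ ∈ [-l, -η]` (Arc); for `-φ₀ ≤ φ` the maximum is `0` and
`sin (η - φ) > 0` since `0 < η - φ < π`; for `φ < -φ₀`: `η - φ ∈ [φ₀, (π + l)/2]`, so
`sin (η - φ) ≥ m > c (s + R)` (concavity of `sin` on `[0, π]`). `cost`: shift the period to
`[θp - π, θp + π]`; by ZZ the integrand vanishes on `[θp - π, θp)`; on `[θp, θp + π]` it is at most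
`max (sin (η - φ)) 0`, which is `≤ η` for `φ ≤ η` and `0` for `η ≤ φ ≤ π`; so the integral is at most
`η²`, less than `c (W K - 2πR)` for small `η`. -/
def S_CC : Prop := ∀ (a b : ℝ) (p : E2) (K : Set E2) (θp α R s : ℝ), Cfg a b p K → p = qE a b θp →
  0 < s → s < R → 2 * Real.pi * R < W K → Arc a b K θp α θp → α < θp →
  ∃ w c φ₁, Pert a b p K θp R s w c φ₁

/-- CD (60 min, deps ZZ QQ). The mirror image of CC: the case `α = θp < β`, with
`w = ev (θp + π/2 - η)`, `ip w (θp + φ) = sin (η + φ)`. -/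
def S_CD : Prop := ∀ (a b : ℝ) (p : E2) (K : Set E2) (θp β R s : ℝ), Cfg a b p K → p = qE a b θp →
  0 < s → s < R → 2 * Real.pi * R < W K → Arc a b K θp θp β → θp < β →
  ∃ w c φ₁, Pert a b p K θp R s w c φ₁

end Pool.Agent.H741.EL
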